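import Pool.Agent.N193.PS.Dec2
import Pool.Agent.N794.CG.Quad

/-!
# The mean size of the torsion of the class groups of the fields `ℚ(√(j n))` over the values `n` of functions of non-integral index

From Mathlib: `𝓞 K`, `ClassGroup`, `NumberField.discr`: the ring of integers, the class group and the discriminant;
`ContDiffAt ℝ ⊤`: infinitely differentiable at a point; `iteratedDeriv m f`: the derivative of order `m`;
`⌊y⌋₊`: the integer part of `y`, and `0` for `y < 0`.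

Method: the characteristic function of the integer part of `f m`, `m ≤ M`, is small at all frequencies which have many
binary places far from the integers (starting library, `Pool.Agent.N193.PS`: van der Corput differencing, Kusmin and
Landau, a Fejer kernel); so for almost all `m` many small primes split in `ℚ(√(j n))`, with a high power saving in the
probability of the exceptions at each scale (starting library, `Pool.Agent.N794.CG`); then the argument of Ellenberg and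
Venkatesh.
-/

set_option autoImplicit false

namespace Pool.Agent.H31NI.Fam

open Finset NumberField Filter

/-- `f` is smoothly varying of index `c`: it is infinitely differentiable and positive for large arguments, and
`t ^ m f⁽ᵐ⁾(t) / f(t) → c (c - 1) ... (c - m + 1)` for every `m`. -/
def SmoothlyVarying (c : ℝ) (f : ℝ → ℝ) : Prop :=
  (∃ t₀ : ℝ, ∀ t > t₀, ContDiffAt ℝ ((⊤ : ℕ∞) : WithTop ℕ∞) f t ∧ 0 < f t) ∧
  ∀ m : ℕ, Tendsto (fun t => t ^ m * iteratedDeriv m f t / f t) atTop (nhds (∏ i ∈ range m, (c - i)))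

/-- `|Cl(K)[l]|`: the number of the ideal classes of `K` killed by `l`. -/
noncomputable def tors (K : Type) [Field K] [NumberField K] (l : ℕ) : ℕ := Nat.card {x : ClassGroup (𝓞 K) // x ^ l = 1}

lemma sv_of (c : ℝ) (hc : 0 < c) (hn : ∀ m : ℕ, c ≠ m) (f : ℝ → ℝ) (h : SmoothlyVarying c f) :
    Pool.Agent.N193.PS.SV c (fun m => iteratedDeriv m f) := by
  obtain ⟨⟨t₀, h0⟩, hlim⟩ := h
  refine ⟨hc, hn, ⟨t₀ + 1, fun m t ht => ?_⟩, ?_, fun m => ?_⟩
  · have h1 := (h0 t (by linarith)).1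
    have h2 : DifferentiableAt ℝ (iteratedDeriv m f) t := by
      rw [iteratedDeriv_eq_equiv_comp, LinearIsometryEquiv.comp_differentiableAt_iff]
      exact h1.differentiableAt_iteratedFDeriv (by exact_mod_cast WithTop.coe_lt_top m)
    show HasDerivAt (iteratedDeriv m f) (iteratedDeriv (m + 1) f t) t
    rw [iteratedDeriv_succ]
    exact h2.hasDerivAt
  · filter_upwards [eventually_gt_atTop t₀] with t ht
    simp only [iteratedDeriv_zero]
    exact (h0 t ht).2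
  · simpa only [iteratedDeriv_zero] using hlim m

/-- the size of the number of binary places -/
lemma size (a : ℝ) (ha : 0 < a) : ∃ (V₁ : ℕ), ∀ W k₀ : ℕ, 1 ≤ W → ∃ M₀ : ℕ, ∀ M : ℕ, M₀ ≤ M →
    1 ≤ M ∧ k₀ ≤ ⌊a * Real.log M⌋₊ ∧ (∀ U : ℕ, Real.log M ^ U ≤ (⌊a * Real.log M⌋₊ : ℝ) ^ (2 * U)) ∧
    (∀ V : ℕ, (M : ℝ) ^ V ≤ 2 ^ (V₁ * V * ⌊a * Real.log M⌋₊)) ∧
    (∀ B : ℕ, (⌊a * Real.log M⌋₊ : ℝ) ^ B ≤ Real.log M ^ (2 * B)) ∧
    (2 : ℝ) ^ (-((⌊a * Real.log M⌋₊ : ℝ) / W)) ≤ (M : ℝ) ^ (-(a * Real.log 2 / (2 * W))) ∧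
    (2 : ℝ) ^ ⌊a * Real.log M⌋₊ ≤ (M : ℝ) ^ (a * Real.log 2) := by
  have hl2 : 0 < Real.log 2 := Real.log_pos (by norm_num)
  obtain ⟨V₁, hV₁⟩ := exists_nat_ge (2 / (a * Real.log 2))
  refine ⟨V₁, fun W k₀ hW => ?_⟩
  have hWr : (0 : ℝ) < W := by exact_mod_cast hW
  have hlog : Tendsto (fun M : ℕ => Real.log M) atTop atTop :=
    Real.tendsto_log_atTop.comp tendsto_natCast_atTop_atTop
  have hev := (hlog.eventually_ge_atTop (max (max a 1) ((k₀ + 2 / a + 3) / a))).and (eventually_ge_atTop 1)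
  obtain ⟨M₀, hM₀⟩ := eventually_atTop.mp hev
  refine ⟨M₀, fun M hM => ?_⟩
  obtain ⟨h1, hM1⟩ := hM₀ M hM
  obtain ⟨L, hL⟩ : ∃ L, L = Real.log M := ⟨_, rfl⟩
  rw [← hL] at h1
  have hLa : a ≤ L := (le_max_left _ _).trans ((le_max_left _ _).trans h1)
  have hL1 : 1 ≤ L := (le_max_right _ _).trans ((le_max_left _ _).trans h1)
  have hLk : k₀ + 2 / a + 3 ≤ a * L := by
    have := (le_max_right _ _).trans h1
    rw [div_le_iff₀ ha] at this
    linarith
  have hMr : (0 : ℝ) < M := by exact_mod_cast hM1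
  rw [← hL]
  obtain ⟨k, hk⟩ : ∃ k, k = ⌊a * L⌋₊ := ⟨_, rfl⟩
  rw [← hk]
  have h2a : 0 < 2 / a := by positivity
  have hk0r : (0 : ℝ) ≤ k₀ := Nat.cast_nonneg _
  have hku : (k : ℝ) ≤ a * L := by
    rw [hk]
    exact Nat.floor_le (by positivity)
  have hkl : a * L < k + 1 := by
    rw [hk]
    exact Nat.lt_floor_add_one _
  have hk1 : (1 : ℝ) ≤ k := by linarith
  have hk2 : 2 / a ≤ k := by linarith
  have hexp : (M : ℝ) = Real.exp L := by
    rw [hL, Real.exp_log hMr]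
  refine ⟨hM1, ?_, ?_, ?_, ?_, ?_, ?_⟩
  · have : (k₀ : ℝ) ≤ k := by linarith
    exact_mod_cast this
  · intro U
    have h3 : L ≤ (k : ℝ) ^ 2 := by
      have h4 : 2 ≤ k * a := by
        rwa [div_le_iff₀ ha] at hk2
      nlinarith
    calc L ^ U ≤ ((k : ℝ) ^ 2) ^ U := pow_le_pow_left₀ (by linarith) h3 U
      _ = (k : ℝ) ^ (2 * U) := by rw [← pow_mul]
  · intro V
    have h3 : (M : ℝ) ≤ 2 ^ (V₁ * k) := by
      have h4 : (2 : ℝ) ^ (V₁ * k) = Real.exp (Real.log 2 * ((V₁ * k : ℕ) : ℝ)) := by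
        rw [Real.exp_mul, Real.exp_log (by norm_num), Real.rpow_natCast]
      rw [hexp, h4, Real.exp_le_exp]
      push_cast
      have h5 : 2 ≤ V₁ * (a * Real.log 2) := by
        rwa [div_le_iff₀ (by positivity)] at hV₁
      have h6 : a * L ≤ a * (Real.log 2 * (V₁ * k)) := by
        have h7 : 2 * (k : ℝ) ≤ V₁ * (a * Real.log 2) * k := mul_le_mul_of_nonneg_right h5 (by linarith)
        nlinarith
      exact le_of_mul_le_mul_left h6 ha
    calc (M : ℝ) ^ V ≤ (2 ^ (V₁ * k)) ^ V := pow_le_pow_left₀ hMr.le h3 V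
      _ = 2 ^ (V₁ * V * k) := by rw [← pow_mul]; congr 1; ring
  · intro B
    have h3 : (k : ℝ) ≤ L ^ 2 := by nlinarith
    calc (k : ℝ) ^ B ≤ (L ^ 2) ^ B := pow_le_pow_left₀ (by linarith) h3 B
      _ = L ^ (2 * B) := by rw [← pow_mul]
  · have h4 : (2 : ℝ) ^ (-((k : ℝ) / W)) = Real.exp (Real.log 2 * (-((k : ℝ) / W))) := by
      rw [Real.exp_mul, Real.exp_log (by norm_num)]
    have h5 : (M : ℝ) ^ (-(a * Real.log 2 / (2 * W))) = Real.exp (L * (-(a * Real.log 2 / (2 * W)))) := by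
      rw [Real.exp_mul, ← hexp]
    rw [h4, h5, Real.exp_le_exp]
    have h6 : a * L / 2 ≤ k := by linarith
    have h7 : L * (-(a * Real.log 2 / (2 * W))) = -(Real.log 2 * (a * L / 2) / W) := by
      field_simp
    have h8 : Real.log 2 * (-((k : ℝ) / W)) = -(Real.log 2 * k / W) := by ring
    rw [h7, h8, neg_le_neg_iff]
    exact div_le_div_of_nonneg_right (mul_le_mul_of_nonneg_left h6 hl2.le) hWr.le
  · have h4 : (2 : ℝ) ^ k = Real.exp (Real.log 2 * (k : ℝ)) := by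
      rw [Real.exp_mul, Real.exp_log (by norm_num), Real.rpow_natCast]
    have h5 : (M : ℝ) ^ (a * Real.log 2) = Real.exp (L * (a * Real.log 2)) := by
      rw [Real.exp_mul, ← hexp]
    rw [h4, h5, Real.exp_le_exp]
    nlinarith

open Classical in
/-- Let `f` be smoothly varying of an index `c > 0` which is not an integer (e.g. `f t = t ^ c`, or a finite sum of real
powers with the leading term `a t ^ c`, `a > 0`, or such a sum times a power of the logarithm), and let `r ≥ 1`. There is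
`δ > 0` such that for `κ ≠ 0` and `U`, `V` there are `B`, `M₀` such that the following holds for all `M ≥ M₀`, all integers
`c₀`, all integers `j ≠ 0` with `|j| ≤ (log M) ^ U`, all `1 ≤ l ≤ (log M) ^ U`, and all `Y ≥ 1`.

Let `K_n = ℚ(√(j n))` be quadratic fields, real or imaginary, with discriminant of absolute value at most `Y`, for the
integers `n` in a set `S` of integers of absolute value at most `M ^ V`. Then the mean over `1 ≤ m ≤ M` of the power
`|Cl(K_n)[l]| ^ r`, `n = c₀ + κ ⌊f m⌋` (with `0` if `n` is not in `S`) is at most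
`((log M) ^ B Y ^ (1 / 2) max (Y ^ (-1 / (2 l)), M ^ (- δ))) ^ r`. For `r = 1` and a prime `l` this is the average of the
question, with the exponent `1 / 2 - 1 / (2 l)`, over the family. -/
theorem result (c : ℝ) (f : ℝ → ℝ) (hc : 0 < c) (hn : ∀ m : ℕ, c ≠ m) (hf : SmoothlyVarying c f) (r : ℕ) (hr : 1 ≤ r) :
    ∃ δ : ℝ, 0 < δ ∧ ∀ κ : ℤ, κ ≠ 0 → ∀ U V : ℕ, ∃ B M₀ : ℕ, ∀ M : ℕ, M₀ ≤ M →
    ∀ c₀ j : ℤ, j ≠ 0 → |(j : ℝ)| ≤ Real.log M ^ U → ∀ l : ℕ, 1 ≤ l → (l : ℝ) ≤ Real.log M ^ U → ∀ Y : ℝ, 1 ≤ Y →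
    ∀ (S : Set ℤ) (K : ℤ → Type) [∀ n, Field (K n)] [∀ n, NumberField (K n)],
    (∀ n ∈ S, |(n : ℝ)| ≤ (M : ℝ) ^ V ∧ Module.finrank ℚ (K n) = 2 ∧ |(discr (K n) : ℝ)| ≤ Y ∧
      ∃ α : K n, IntermediateField.adjoin ℚ {α} = ⊤ ∧ α ^ 2 = ((j * n : ℤ) : K n)) →
    1 / (M : ℝ) * ∑ m ∈ Icc 1 M, (if c₀ + κ * (⌊f m⌋₊ : ℕ) ∈ S then (tors (K (c₀ + κ * (⌊f m⌋₊ : ℕ))) l : ℝ) ^ r else 0) ≤
      (Real.log M ^ B * (√Y * max (Y ^ (-(1 / (2 * (l : ℝ))))) ((M : ℝ) ^ (-δ)))) ^ r := by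
  have hl2 : 0 < Real.log 2 := Real.log_pos (by norm_num)
  have hsv := sv_of c hc hn f hf
  obtain ⟨A, X₀, hdec⟩ := hsv.decays
  obtain ⟨W, hW, H⟩ := Pool.Agent.N794.CG.quad_gen 2 le_rfl A (1 / 2) (by norm_num) (by norm_num) r hr
  have hWr : (0 : ℝ) < W := by exact_mod_cast hW
  obtain ⟨a, ha⟩ : ∃ a : ℝ, a = c / (2 * Real.log 2) := ⟨_, rfl⟩
  have ha0 : 0 < a := by rw [ha]; positivity
  have ha2 : a * Real.log 2 = c / 2 := by
    rw [ha]; field_simp
  obtain ⟨V₁, hsize⟩ := size a ha0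
  refine ⟨a * Real.log 2 / (2 * W), by positivity, fun κ hκ U V => ?_⟩
  obtain ⟨B, k₀, J⟩ := H 1 κ le_rfl hκ (2 * U) (V₁ * V)
  obtain ⟨M₁, hM₁⟩ := hsize W k₀ hW
  have hlow := (tendsto_natCast_atTop_atTop (R := ℝ)).eventually (hsv.poly_low (c / 2) (by linarith))
  obtain ⟨M₂, hM₂⟩ := eventually_atTop.mp hlow
  refine ⟨2 * B, M₁ + M₂ + X₀, fun M hM c₀ j hj0 hj l hl1 hlU Y hY S K _ _ hS => ?_⟩
  obtain ⟨q1, q2, q3, q4, q5, q6, q7⟩ := hM₁ M (by omega)
  have hfM := hM₂ M (by omega)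
  simp only [iteratedDeriv_zero] at hfM
  obtain ⟨k, hk⟩ : ∃ k, k = ⌊a * Real.log M⌋₊ := ⟨_, rfl⟩
  rw [← hk] at q2 q3 q4 q5 q6 q7
  have hMr : (0 : ℝ) < M := by exact_mod_cast q1
  have hpow : (2 : ℝ) ^ k ≤ f M := by
    refine q7.trans (le_trans (le_of_eq ?_) hfM)
    rw [ha2]
    congr 1
    ring
  have hd := hdec M (by omega) k (by simpa only [iteratedDeriv_zero] using hpow) c₀ κ
  have hjk : |j| ≤ (k : ℤ) ^ (2 * U) := by
    have h1 := hj.trans (q3 U)
    exact_mod_cast h1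
  have hlk : l ≤ k ^ (2 * U) := by
    have h1 := hlU.trans (q3 U)
    exact_mod_cast h1
  have h1 := J k q2 j hj0 hjk l hl1 hlk Y hY S K (by
    intro n hn
    obtain ⟨p1, p2⟩ := hS n hn
    refine ⟨?_, p2⟩
    have h2 := p1.trans (q4 V)
    exact_mod_cast h2) 1 ℕ (Icc 1 M) (fun _ => 1 / (M : ℝ)) _ le_rfl (fun _ _ => by positivity) hd.sum.le
    (Pool.Agent.N794.CG.dom_of_decays hd)
  have hval : ∀ m : ℕ, Pool.Agent.N193.PS.val (fun m => iteratedDeriv m f) m = ⌊f m⌋₊ := by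
    intro m
    unfold Pool.Agent.N193.PS.val
    simp only [iteratedDeriv_zero]
  simp only [hval, one_mul] at h1
  rw [mul_sum]
  refine h1.trans ?_
  have hL0 : 0 ≤ Real.log M := Real.log_nonneg (by exact_mod_cast q1)
  refine pow_le_pow_left₀ (by positivity) ?_ r
  refine mul_le_mul (q5 B) ?_ (by positivity) (by positivity)
  exact mul_le_mul_of_nonneg_left (max_le_max le_rfl (by exact_mod_cast q6)) (by positivity)

end Pool.Agent.H31NI.Fam
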